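import Pool.Agent.Results.MP_8d13b5_lc.RandomOrbits
import Pool.Agent.U569.APL.Fam

set_option autoImplicit false

/-!
# The Skolem Problem for recurrences whose data are formed from arbitrary sets

Consider linear recurrences of order `d` whose `d` coefficients, and whose initial values at the places in a set `J`,
are the coordinates of a vector `v`; the other initial values are arbitrary integers with `|b_i| ≤ D`. Let a sequence
(`j = 0, 1, 2, …`) of families of integral vectors `v` be given. The vectors of the `j`-th family are `c₀ + y`, `c₀` an
arbitrary integral vector (depending on `j`, of any size) and `y` one of the following vectors (represented by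
`0, …, q - 1`); `r = d + |J|` is the number of the coordinates:

* `y` in any family of vectors modulo some `q` (depending on `j`), whose nontrivial Fourier coefficients are at most
  `1 / (Z (42 + 3 log q) ^ r)`, where `Z → ∞`, `Z ≤ q`;
* `β(x, z) + u(x) + w(z)` modulo a prime `P → ∞`, where `β : k ^ a × k ^ b → k ^ r` is bilinear, the nontrivial
  combinations of its coordinates have rank at least `ρ`, `x` and `z` are in ARBITRARY sets `E` and `F` with
  `|E| |F| ≥ P ^ (a + b - ρ + δ)`, `u` and `w` are arbitrary functions (for `δ > 0` fixed);
* the same for `β(x, z) = x z`, `x` and `z` in ARBITRARY subsets of the field of `P ^ r` elements,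
  `|E| |F| ≥ P ^ (r + δ)`;
* polynomials in `k` variables of degree at most `P ^ (δ / 4)`, all nontrivial combinations of which have a monomial with
  at least two variables, plus arbitrary functions of the single variables, on products of `k` ARBITRARY sets of at
  least `P ^ (1 / 2 + δ)` residues;
* polynomials in one variable of degree at most `P ^ (δ / 4)`, no nontrivial combination of which is constant, on any
  subgroup of the multiplicative group modulo `P` with at least `P ^ (1 / 2 + δ)` elements.

Then there is a set `E j` of exceptions in the `j`-th family, `|E j| = o(size)`, such that for ALL `D`, for large `j` and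
all vectors of the `j`-th family outside of `E j` the Skolem Problem is solved for all these recurrences at once
(all other initial values of absolute value at most `D`): there is a zero term if and only if one of the `d` initial
values is zero; one errorless algorithm halts on every input which codes the sequence; and if no initial value is zero,
there is a prime `p` which divides no term, modulo which the sequence has period `p - 1`.

New: the families. The starting results (boxes, residue classes, random orbits, equidistributed sequences) have
other sequences of data; the exceptional sets are `ProNull` by `RandomOrbits`. Such sets contain few members of the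
families by the theorem of the starting library `N384.VF` on vectors of residues; the estimates of the Fourier
coefficients on arbitrary sets are in `U569/APL`.
-/

namespace Pool.Agent.Results.MP_8d13b5_lc.ArbitrarySets

open Pool.Agent.H684R3.Smo Pool.Agent.H884R2.Sko Pool.Agent.H692R2.USS
open Pool.Agent.U569.APL
open Pool.Agent.Results.MP_8d13b5_lc.RandomOrbits (Solved)

theorem result :
    -- one algorithm for all integer linear recurrence sequences, which never errs
    ∃ A : List (ℕ × ℕ) × List (ℕ × ℕ) →. Bool, Partrec A ∧
      (∀ z v, IsLRS z v → ∀ b ∈ A z, (b = true ↔ ∃ n, v n = 0)) ∧
      -- one total computable function, which reads all linear recurrence sequences and never errs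
      ∃ f : ℕ × (List (ℕ × ℕ) × List (ℕ × ℕ)) → Bool, Computable f ∧
        (∀ (y : ℕ) (z : List (ℕ × ℕ) × List (ℕ × ℕ)) (v : ℕ → ℤ), IsLRS z v → f (y, z) = true →
          ∀ n, v n ≠ 0) ∧
        -- all orders and all sets of places
        ∀ (d : ℕ) (J : Finset (Fin d)), 1 ≤ d →
          -- one small set of exceptions, for all bounds `D`
          (∀ (τ : ℕ → Type) (s : ∀ j, Finset (τ j)) (v : ∀ j, τ j → Fin d ⊕ J → ℤ), FlatFamilies s v →
            ∃ E : ∀ j, Finset (τ j), Small s E ∧ ∀ D : ℕ, Outside s E v (Solved A f d J D)) ∧
          -- the families formed from arbitrary sets of residues
          Examples (Fin d ⊕ J) := by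
  classical
  obtain ⟨A, hA, hA2, f, hf, hf2, h⟩ := RandomOrbits.result
  refine ⟨A, hA, hA2, f, hf, hf2, fun d J hd => ⟨fun τ s v hs => ?_, examples _⟩⟩
  obtain ⟨E, hE, h2⟩ := flat_diag hs (fun D : ℕ => {x : Fin d ⊕ J → ℤ | ¬ Solved A f d J D x})
    (fun D => (h d J hd).1 D)
  refine ⟨E, hE, fun D => ?_⟩
  filter_upwards [h2 D] with j hj i hi hi2
  exact not_not.mp (hj i hi hi2)

end Pool.Agent.Results.MP_8d13b5_lc.ArbitrarySets
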