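import Pool.Agent.Results.MP_8d13b5_lc.RandomOrbits
import Pool.Agent.U125.NO.Seq

/-!
# The Skolem Problem for recurrences whose data are given by normal numbers or normal words

We consider linear recurrences of order `d` whose `d` coefficients, and whose initial values at the places in
a set `J`, are different coordinates of an integral vector `c`; the other initial values are arbitrary
integers `b_i` with `|b_i| ≤ D`. `Solved A f d J D c` (starting result `RandomOrbits`) says that for all of them
the sequence has a zero term if and only if one of the initial values is zero, the errorless algorithm `A`
halts on every input which codes the sequence, and if no initial value is zero, there is a prime which divides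
no term and certifies this by the total function `f`.

The starting result `RandomOrbits` shows this for 100% of the vectors of almost every random orbit. Here the
sequence of the vectors is a given one:

**Theorem.** Let `c_0, c_1, …` be a normal orbit (`NormalOrbit`): the orbit of an integral vector under a finite
family of integral affine maps, along ANY normal sequence of indices, where the family is wide (for all `q`
prime to some `q₀` the maps are bijective modulo `q`, and the vector is moved to a positive proportion, not
depending on `q`, of all vectors modulo `q`). Then `c_n` has the property `Solved` for all `n` outside of a set of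
density zero, for all `d`, `J`, `D`.

Examples: (1) `c_n = (⌊b ^ n x_i⌋)_i` for ANY vector `x` of real numbers which is normal to the base `b`: so if the
coefficients and the initial values are read off, digit by digit, from the expansions of the numbers `x_i`,
the Skolem Problem is solved for 100% of the recurrences obtained; for `κ` with one element and `d = 1`
the number `x` is any normal number in the sense of Borel. (2) The orbit of any vector `v ≠ 0` along any normal
word in matrices which generate the special linear group modulo all `q` prime to some `q₀`, for example
generators of a thin group. (3) Digits from restricted sets of vectors.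

Proof. The exceptional vectors are a pronull set (starting result `RandomOrbits`), and normal orbits visit
pronull sets only at times of density zero (engine `Pool.Agent.U125.NO`: the orbits along a normal sequence in
a finite transitive system of permutations are equidistributed, by Poisson's equation and the second moment
of martingales on blocks of a fixed length).
-/

set_option autoImplicit false

namespace Pool.Agent.Results.MP_8d13b5_lc.NormalSequences

open Filter Topology
open Pool.Agent.H684R3.Smo Pool.Agent.H884R2.Sko Pool.Agent.H692R2.USS
open Pool.Agent.U125.NO (NormalOrbit Examples examples)
open Pool.Agent.Results.MP_8d13b5_lc.RandomOrbits (Solved)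

theorem result :
    -- one algorithm for all integer linear recurrence sequences, which never errs
    (∃ A : List (ℕ × ℕ) × List (ℕ × ℕ) →. Bool, Partrec A ∧
      (∀ z v, IsLRS z v → ∀ b ∈ A z, (b = true ↔ ∃ n, v n = 0)) ∧
      -- one total computable function, which reads all linear recurrence sequences and never errs
      ∃ f : ℕ × (List (ℕ × ℕ) × List (ℕ × ℕ)) → Bool, Computable f ∧
        (∀ (y : ℕ) (z : List (ℕ × ℕ) × List (ℕ × ℕ)) (v : ℕ → ℤ), IsLRS z v → f (y, z) = true →
          ∀ n, v n ≠ 0) ∧
        -- all normal orbits, all orders and all sets of places
        ∀ (κ : Type) [Fintype κ] [DecidableEq κ] (c : ℕ → κ → ℤ), NormalOrbit c →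
          ∀ (d : ℕ) (J : Finset (Fin d)), 1 ≤ d → ∀ g : Fin d ⊕ J → κ, Function.Injective g →
            ∀ D : ℕ, Tendsto (fun N : ℕ =>
              (({n : ℕ | n < N ∧ ¬ Solved A f d J D (fun i => c n (g i))}.ncard : ℕ) : ℝ) /
                (N : ℝ)) atTop (𝓝 0)) ∧
    -- normal orbits
    ∀ (κ : Type) [Fintype κ] [DecidableEq κ], Examples κ := by
  obtain ⟨A, hA, hA1, f, hf, hf1, h⟩ := Pool.Agent.Results.MP_8d13b5_lc.RandomOrbits.result
  refine ⟨⟨A, hA, hA1, f, hf, hf1, fun κ _ _ c hc d J hd g hg D => ?_⟩, fun κ _ _ => examples κ⟩
  have h1 := (h d J hd).1 D
  have h2 := (Pool.Agent.N24.RW.clo (Fin d ⊕ J)).2.2.2.2 κ g hg _ h1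
  exact hc.avoids (fun x => ¬ Solved A f d J D (fun i => x (g i))) h2

end Pool.Agent.Results.MP_8d13b5_lc.NormalSequences
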