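import Pool.Agent.U307.SK.F
import Pool.Agent.H684R3.Smo.Done

set_option autoImplicit false

/-!
# The Skolem Problem with a random target

Fix a recurrence `c` with squarefree characteristic polynomial (any order, any roots), an integer
`β ≠ 0` and `r ≥ 1`, `s`. For all but at most `H ^ (1 / 2 + 1 / (2 A) + ε)` of the integers `t` in
any interval `[T - H, T + H]`, ALL the sequences

  `v_n = m (t β ^ n) ^ r + ∑_(e,e') w_(e,e') ∏ u_j(n + i) ^ e_(j,i) (t β ^ n) ^ e'`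

(`e_(j,i) ≤ r`, `e' < r`) built from `s` solutions `u_j` of the recurrence, with integer initial
values and coefficients of absolute value at most `H ^ η` (`m ≠ 0`), have no zero term. This is
certified by a prime `p ≤ (log H) ^ A` which divides no term of `v` and modulo which `v` has period
`(p - 1) / (2 r)`, and the algorithm `f` recognises `v`. For `A` large the exceptional set has nearly
the square root of the length of the interval.

Proof idea. Modulo a prime `p ≡ 1` modulo `2 r` for which the characteristic roots and `β` are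
`2 r`-th powers, the terms of `v` are `(p - 1) / (2 r)` polynomials of degree `r` in `t`, hence `v`
has a zero term modulo `p` for at most half of the residues `t`. The number of these primes up to
`y` is at least `y ^ θ` for each `θ < 1` (prime ideal theorem), and by the large sieve (Montgomery's
inequality) a set in an interval of length `2 H` which misses half of the residue classes modulo
these primes `p ≤ (log H) ^ A` has at most `H ^ (1 / 2 + 1 / (2 A) + ε)` elements.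
-/

namespace Pool.Agent.Results.MP_8d13b5_lc.RandomTargets

open Pool.Agent.H684R3.Smo Pool.Agent.H884R2.Sko Pool.Agent.H692R2.USS Pool.Agent.U307.SK
open scoped Classical

/-- `m z ^ r + ∑ w_(e,e') (∏ x_q ^ e_q) z ^ e'`, over all the exponent vectors `e` with entries at
most `r` and all `e' < r`. -/
noncomputable def value {κ : Type} [Fintype κ] {r : ℕ} (m : ℤ) (w : (κ → Fin (r + 1)) × Fin r → ℤ)
    (x : κ → ℤ) (z : ℤ) : ℤ :=
  m * z ^ r + ∑ e, w e * ((∏ q, x q ^ (e.1 q : ℕ)) * z ^ (e.2 : ℕ))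

/-- For all `s` solutions `u_j` of the recurrence `c` with initial values at most `X`, and all the
coefficients `m ≠ 0`, `w` at most `X`, the sequence `v_n = value m w (u_j(n + i)) (t β ^ n)` is
avoided by zero: some prime `p ≤ Y`, `p ≡ 1` modulo `2 r`, divides no term of `v`, and `v` has
period `(p - 1) / (2 r)` modulo `p`; and the function `f` returns `true` on every input which codes
`v` as a linear recurrence sequence. -/
def Avoided (f : ℕ × (List (ℕ × ℕ) × List (ℕ × ℕ)) → Bool) {d : ℕ} (c : Fin d → ℤ) (β : ℤ)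
    (s r : ℕ) (X Y : ℝ) (t : ℤ) : Prop :=
  ∀ (a : Fin s → Fin d → ℤ) (u : Fin s → ℕ → ℤ), (∀ j i, |(a j i : ℝ)| ≤ X) →
    (∀ j, IsSeq c (a j) (u j)) →
    ∀ (m : ℤ) (w : (Fin s × Fin d → Fin (r + 1)) × Fin r → ℤ), m ≠ 0 → |(m : ℝ)| ≤ X →
    (∀ e, |(w e : ℝ)| ≤ X) →
    ∀ v : ℕ → ℤ, (∀ n, v n = value m w (fun q => u q.1 (n + q.2)) (t * β ^ n)) →
      (∃ p : ℕ, p.Prime ∧ (p : ℝ) ≤ Y ∧ 2 * r ∣ p - 1 ∧
        ∀ n, ¬ (p : ℤ) ∣ v n ∧ (p : ℤ) ∣ v (n + (p - 1) / (2 * r)) - v n) ∧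
      ∀ z, IsLRS z v → f (⌊Y⌋₊, z) = true

theorem le_floor_of {a : ℤ} {X : ℝ} (h : |(a : ℝ)| ≤ X) : |a| ≤ ((⌊X⌋₊ : ℕ) : ℤ) := by
  have h1 : ((a.natAbs : ℕ) : ℝ) ≤ X := by
    rw [Nat.cast_natAbs]
    push_cast
    exact h
  have h2 := Nat.le_floor h1
  rw [Int.abs_eq_natAbs]
  exact_mod_cast h2

theorem result :
    -- one total computable function, which reads all linear recurrence sequences and never errs
    ∃ f : ℕ × (List (ℕ × ℕ) × List (ℕ × ℕ)) → Bool, Computable f ∧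
      (∀ (y : ℕ) (z : List (ℕ × ℕ) × List (ℕ × ℕ)) (v : ℕ → ℤ), IsLRS z v → f (y, z) = true →
        ∀ n, v n ≠ 0) ∧
      ∀ (s r d : ℕ) (_ : 1 ≤ r) (hd : 1 ≤ d) (c : Fin d → ℤ) (_ : c ⟨d - 1, by omega⟩ ≠ 0)
        (_ : Squarefree ((charPoly c).map (Int.castRingHom ℚ))) (β : ℤ) (_ : β ≠ 0)
        (A ε : ℝ) (_ : 1 < A) (_ : 0 < ε),
        ∃ η : ℝ, 0 < η ∧ ∃ H₀ : ℕ, ∀ H : ℕ, H₀ ≤ H → ∀ T : ℤ,
          (Nat.card {t : ℤ // |t - T| ≤ (H : ℤ) ∧
            ¬ Avoided f c β s r ((H : ℝ) ^ η) (Real.log H ^ A) t} : ℝ) ≤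
            (H : ℝ) ^ (1 / 2 + 1 / (2 * A) + ε) := by
  obtain ⟨f, hf, hfe⟩ := t10
  refine ⟨f, hf, fun y z v hv ht n hn => ?_, ?_⟩
  · obtain ⟨q, _, _, hq⟩ := (hfe y z v hv).1 ht
    apply hq n
    rw [hn]
    exact dvd_zero _
  intro s r d hr hd c hc hsq β hβ A ε hA hε
  set c' : Fin d → ℤ := fun i => c (Fin.rev i) with hc'
  rw [charPoly_eq] at hsq
  have h0 : (chi c').coeff 0 ≠ 0 := by
    have := chi_coeff c' ⟨0, by omega⟩
    simp only at this
    rw [this, neg_ne_zero]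
    have e : Fin.rev (⟨0, by omega⟩ : Fin d) = ⟨d - 1, by omega⟩ := by
      apply Fin.ext
      rw [Fin.val_rev]
    rw [hc']
    simp only
    rw [e]
    exact hc
  obtain ⟨g, p₀, hg, hsplit⟩ := split_primes (2 * r) (by omega) c' h0 hsq β hβ
  obtain ⟨θ, hθ0, hθ1, H₁, hone⟩ := oneparam A (ε / 2) hA (by positivity)
  obtain ⟨H₂, hsup⟩ := supply g hg p₀ A hA θ hθ0 hθ1 16
  obtain ⟨η, hη0, hη1, H₃, hbox⟩ := smallbox (Fintype.card ((Fin s × Fin d) ⊕
    (((Fin s × Fin d → Fin (r + 1)) × Fin r) ⊕ Unit))) (ε / 2) (by positivity)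
  refine ⟨η, hη0, max 3 (max H₁ (max H₂ H₃)), fun H hH T => ?_⟩
  have hH3 : 3 ≤ H := (le_max_left _ _).trans hH
  have hH' := (le_max_right _ _).trans hH
  have hHH1 : H₁ ≤ H := (le_max_left _ _).trans hH'
  have hH'' := (le_max_right _ _).trans hH'
  have hHH2 : H₂ ≤ H := (le_max_left _ _).trans hH''
  have hHH3 : H₃ ≤ H := (le_max_right _ _).trans hH''
  have hHr : (1 : ℝ) ≤ H := by
    have : (3 : ℝ) ≤ H := by exact_mod_cast hH3
    linarith
  have hlog : 0 ≤ Real.log H := Real.log_nonneg hHr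
  set X : ℝ := (H : ℝ) ^ η with hX
  have hX1 : 1 ≤ X := Real.one_le_rpow hHr hη0.le
  set Y : ℝ := Real.log H ^ A with hY
  have hY0 : 0 ≤ Y := Real.rpow_nonneg hlog _
  set y : ℕ := ⌊Y⌋₊ with hy
  have hsupH := hsup H hHH2
  -- the primes
  set P : ℤ → Finset ℕ := fun m => (PP g p₀ y).filter (fun p : ℕ => ¬ (p : ℤ) ∣ m) with hP
  have hPP : ∀ p ∈ PP g p₀ y, p.Prime ∧ p ≤ y ∧ p₀ ≤ p ∧
      (g.map (Int.castRingHom (ZMod p))).Splits := by
    intro p hp
    unfold PP at hp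
    rw [Finset.mem_filter, Finset.mem_range] at hp
    exact ⟨hp.2.1, by omega, hp.2.2.1, hp.2.2.2⟩
  have hPcard : ∀ m : ℤ, m ≠ 0 → |(m : ℝ)| ≤ X → (y : ℝ) ^ θ ≤ ((P m).card : ℝ) := by
    intro m hm hmX
    have h1 := few m hm (PP g p₀ y) (fun p hp => (hPP p hp).1) X hmX
    have h2 : Real.log X ≤ Real.log H := by
      rw [hX, Real.log_rpow (by linarith)]
      nlinarith
    have h3 : (1 / 2 : ℝ) ≤ Real.log 2 := by
      have := Real.log_two_gt_d9
      linarith
    have h4 := Finset.card_filter_add_card_filter_not (s := PP g p₀ y)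
      (fun p : ℕ => (p : ℤ) ∣ m)
    have h5 : (((PP g p₀ y).filter (fun p : ℕ => (p : ℤ) ∣ m)).card : ℝ) + ((P m).card : ℝ) =
        ((PP g p₀ y).card : ℝ) := by exact_mod_cast h4
    have h6 : (0 : ℝ) ≤ (((PP g p₀ y).filter (fun p : ℕ => (p : ℤ) ∣ m)).card : ℝ) := by
      positivity
    have h7 : (0 : ℝ) ≤ (y : ℝ) ^ θ := by positivity
    nlinarith
  -- the polynomials
  set Q : ((Fin s × Fin d) ⊕ (((Fin s × Fin d → Fin (r + 1)) × Fin r) ⊕ Unit) → ℤ) → ℕ →
    Polynomial ℤ := fun z n => Qp (z (Sum.inr (Sum.inr ()))) (fun e => z (Sum.inr (Sum.inl e)))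
      (fun q : Fin s × Fin d => seq c' (fun i => z (Sum.inl (q.1, i))) (n + q.2)) (β ^ n) with hQ
  have hper : ∀ z, ∀ p ∈ PP g p₀ y, ∀ n,
      (Q z (n + (p - 1) / (2 * r))).map (Int.castRingHom (ZMod p)) =
        (Q z n).map (Int.castRingHom (ZMod p)) := by
    intro z p hp n
    obtain ⟨hpp, hpy, hp0, hps⟩ := hPP p hp
    obtain ⟨hk, _, hseq, hβ0, hβ1⟩ := hsplit p hpp hp0 hps
    rw [hQ]
    simp only
    apply Qp_map
    · intro q
      rw [Pool.Agent.H884R2.Sko.map_seq, Pool.Agent.H884R2.Sko.map_seq]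
      have h1 := hseq (fun i => ((z (Sum.inl (q.1, i)) : ℤ) : ZMod p)) (n + q.2)
      rw [add_right_comm] at h1
      simpa using h1
    · simp only [map_pow, eq_intCast]
      rw [pow_add, hβ1, mul_one]
  have hEne : ∀ z, z (Sum.inr (Sum.inr ())) ≠ 0 → ∀ p ∈ P (z (Sum.inr (Sum.inr ()))), ∀ n,
      (Q z n).map (Int.castRingHom (ZMod p)) ≠ 0 := by
    intro z hz p hp n h
    rw [hP] at hp
    simp only [Finset.mem_filter] at hp
    obtain ⟨hpp, hpy, hp0, hps⟩ := hPP p hp.1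
    obtain ⟨hk, _, hseq, hβ0, hβ1⟩ := hsplit p hpp hp0 hps
    have : Fact p.Prime := ⟨hpp⟩
    have h1 := congrArg (fun q => Polynomial.coeff q r) h
    simp only [Polynomial.coeff_map, Polynomial.coeff_zero] at h1
    rw [hQ] at h1
    simp only [Qp_coeff, map_mul, map_pow, eq_intCast] at h1
    rcases mul_eq_zero.1 h1 with h2 | h2
    · rw [ZMod.intCast_zmod_eq_zero_iff_dvd] at h2
      exact hp.2 h2
    · exact (pow_ne_zero r (pow_ne_zero n hβ0)) h2
  set E : ((Fin s × Fin d) ⊕ (((Fin s × Fin d → Fin (r + 1)) × Fin r) ⊕ Unit) → ℤ) →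
    Finset ℤ := fun z => if z (Sum.inr (Sum.inr ())) = 0 then ∅ else
      (Finset.Icc (T - H) (T + H)).filter (fun t : ℤ =>
        ∀ p ∈ P (z (Sum.inr (Sum.inr ()))), ∃ n, (p : ℤ) ∣ (Q z n).eval t) with hE
  have hEcard : ∀ z, (∀ i, |z i| ≤ ((⌊X⌋₊ : ℕ) : ℤ)) →
      ((E z).card : ℝ) ≤ (H : ℝ) ^ (1 / 2 + 1 / (2 * A) + ε / 2) := by
    intro z hz
    rw [hE]
    simp only
    split_ifs with hz0
    · simp only [Finset.card_empty, Nat.cast_zero]
      positivity
    · have hzX : |((z (Sum.inr (Sum.inr ())) : ℤ) : ℝ)| ≤ X := by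
        have h1 := hz (Sum.inr (Sum.inr ()))
        have h2 : |((z (Sum.inr (Sum.inr ())) : ℤ) : ℝ)| ≤ ((⌊X⌋₊ : ℕ) : ℝ) := by
          exact_mod_cast h1
        exact h2.trans (Nat.floor_le (by linarith))
      refine hone H hHH1 (P _) ?_ (hPcard _ hz0 hzX) T r (2 * r) le_rfl (by omega) ?_ (Q z) ?_ ?_
      · intro p hp
        rw [hP] at hp
        simp only [Finset.mem_filter] at hp
        exact ⟨(hPP p hp.1).1, (hPP p hp.1).2.1⟩
      · intro p hp
        rw [hP] at hp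
        simp only [Finset.mem_filter] at hp
        obtain ⟨hpp, hpy, hp0, hps⟩ := hPP p hp.1
        exact (hsplit p hpp hp0 hps).1
      · intro n
        exact Qp_natDegree _ _ _ _
      · intro p hp n
        refine ⟨hEne z hz0 p hp n, ?_⟩
        rw [hP] at hp
        simp only [Finset.mem_filter] at hp
        exact hper z p hp.1 n
  have hcov : ∀ t ∈ Finset.Icc (T - H) (T + H), ¬ Avoided f c β s r X Y t →
      ∃ z : ((Fin s × Fin d) ⊕ (((Fin s × Fin d → Fin (r + 1)) × Fin r) ⊕ Unit) → ℤ),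
        (∀ i, |z i| ≤ ((⌊X⌋₊ : ℕ) : ℤ)) ∧ t ∈ E z := by
    intro t ht hnot
    by_contra hcon
    apply hnot
    intro a u haX hu m w hm hmX hwX v hv
    set z : (Fin s × Fin d) ⊕ (((Fin s × Fin d → Fin (r + 1)) × Fin r) ⊕ Unit) → ℤ :=
      Sum.elim (fun q => a q.1 q.2) (Sum.elim w (fun _ => m)) with hz
    have hzN : ∀ i, |z i| ≤ ((⌊X⌋₊ : ℕ) : ℤ) := by
      rintro (q | e | e)
      · exact le_floor_of (haX q.1 q.2)
      · exact le_floor_of (hwX e)
      · exact le_floor_of hmX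
    have hvQ : ∀ n, v n = (Q z n).eval t := by
      intro n
      rw [hv n, hQ]
      simp only
      rw [Qp_eval]
      unfold value
      have hu' : ∀ q : Fin s × Fin d, u q.1 (n + q.2) =
          seq c' (fun i => z (Sum.inl (q.1, i))) (n + q.2) := fun q =>
        (isSeq_iff c (a q.1) (u q.1)).1 (hu q.1) _
      simp only [hu']
      rfl
    have hzm : z (Sum.inr (Sum.inr ())) = m := rfl
    have htE : t ∉ E z := fun h => hcon ⟨z, hzN, h⟩
    rw [hE] at htE
    simp only at htE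
    rw [hzm, if_neg hm, Finset.mem_filter, not_and] at htE
    have h1 := htE ht
    push Not at h1
    obtain ⟨p, hp, hpn⟩ := h1
    rw [hP] at hp
    simp only [Finset.mem_filter] at hp
    obtain ⟨hpp, hpy, hp0, hps⟩ := hPP p hp.1
    have hpv : ∀ n, ¬ (p : ℤ) ∣ v n := fun n => by rw [hvQ n]; exact hpn n
    refine ⟨⟨p, hpp, ?_, (hsplit p hpp hp0 hps).1, fun n => ⟨hpv n, ?_⟩⟩, fun code hcode => ?_⟩
    · have : (p : ℝ) ≤ (y : ℝ) := by exact_mod_cast hpy
      exact this.trans (Nat.floor_le hY0)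
    · have h2 := hper z p hp.1 n
      have h3 : ∀ j, (((Q z j).eval t : ℤ) : ZMod p) =
          ((Q z j).map (Int.castRingHom (ZMod p))).eval (t : ZMod p) := by
        intro j
        rw [Polynomial.eval_map, Polynomial.eval₂_at_intCast, eq_intCast]
        norm_cast
      rw [hvQ, hvQ, ← ZMod.intCast_zmod_eq_zero_iff_dvd, Int.cast_sub, h3, h3, h2, sub_self]
    · rw [hfe _ _ _ hcode]
      exact ⟨p, hpy, hpp, hpv⟩
  have hub := union_bound (Finset.Icc (T - H) (T + H))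
    (fun t => ¬ Avoided f c β s r X Y t) E ⌊X⌋₊ _ hEcard hcov
  have hcardeq : Nat.card {t : ℤ // |t - T| ≤ (H : ℤ) ∧ ¬ Avoided f c β s r X Y t} =
      ((Finset.Icc (T - H) (T + H)).filter (fun t => ¬ Avoided f c β s r X Y t)).card := by
    apply Nat.subtype_card
    intro t
    rw [Finset.mem_filter, Finset.mem_Icc, abs_le]
    constructor
    · rintro ⟨⟨h1, h2⟩, h3⟩
      exact ⟨⟨by linarith, by linarith⟩, h3⟩
    · rintro ⟨⟨h1, h2⟩, h3⟩
      exact ⟨⟨by linarith, by linarith⟩, h3⟩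
  rw [hcardeq]
  refine hub.trans ?_
  have hfl : ((⌊X⌋₊ : ℕ) : ℝ) ≤ X := Nat.floor_le (by linarith)
  calc (2 * ((⌊X⌋₊ : ℕ) : ℝ) + 1) ^ (Fintype.card ((Fin s × Fin d) ⊕
        (((Fin s × Fin d → Fin (r + 1)) × Fin r) ⊕ Unit))) *
        (H : ℝ) ^ (1 / 2 + 1 / (2 * A) + ε / 2)
      ≤ (H : ℝ) ^ (ε / 2) * (H : ℝ) ^ (1 / 2 + 1 / (2 * A) + ε / 2) := by
        apply mul_le_mul_of_nonneg_right _ (by positivity)
        refine le_trans ?_ (hbox H hHH3)
        exact pow_le_pow_left₀ (by positivity) (by linarith) _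
    _ = (H : ℝ) ^ (1 / 2 + 1 / (2 * A) + ε) := by
        rw [← Real.rpow_add (by linarith)]; congr 1; ring

end Pool.Agent.Results.MP_8d13b5_lc.RandomTargets
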