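import Pool.Agent.U307.SK.L
import Pool.Agent.H684R3.Smo.Done

set_option autoImplicit false

/-!
# The Skolem Problem for fixed recurrences and random initial values: square root saving

Fix a recurrence `c` with squarefree characteristic polynomial (any order `d`, any roots), `s ≥ 1` and
`r`. Take `s` solutions `u_1, ..., u_s` of the recurrence with random initial values, in a box of side
`2 H + 1` and dimension `s d` with any centre. For every `A > 1` and `ε > 0`, for all but at most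
`(2 H + 1) ^ (s d - 1) * H ^ (1 / 2 + 1 / (2 A) + ε)` of the vectors of initial values ALL the sequences
`v_n = G(u_j(n + i))`, for the nonzero integer polynomials `G` of degree at most `r` in each variable
and with coefficients of absolute value at most `H ^ η`, have no zero term: there is a prime
`p ≤ (log H) ^ A` which divides no term of `v` and modulo which `v` has period `(p - 1) / k`,
`k = 2 (s d r + 1)`, and the algorithm `f` recognises `v`.

The starting result `PolylogCertificates` (`s = 1`, `G` one of the coordinates) has an exceptional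
proportion `H ^ (-δ)` for some unspecified `δ > 0` and `A`; here the proportion is nearly `H ^ (-1 / 2)`,
and every exponent `A > 1` suffices.

Proof idea. By the prime ideal theorem there are at least `y ^ θ`, for each `θ < 1`, primes `p ≤ y`,
`p ≡ 1` modulo `k`, for which the characteristic roots are `k`-th powers. For such a prime at most half
of the directions modulo `p` are zeros of the top degree part of `G` at some time. Hence there is a
small integer vector `w` of initial values which is good for `G` modulo a quarter of these primes. On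
every line in the direction `w` the terms of `v` are polynomials of degree at most `s d r` which are
not zero modulo these primes, so that at most half of the residue classes of the parameter give a
zero modulo `p`. The large sieve on each line gives the result for each `G`.
-/

namespace Pool.Agent.Results.MP_8d13b5_lc.SquareRootSaving

open Pool.Agent.H684R3.Smo Pool.Agent.H884R2.Sko Pool.Agent.H692R2.USS Pool.Agent.U307.SK
open Pool.Agent.TH838.SK (ev1)

/-- The value at `x` of the polynomial with the integer coefficients `w`, of degree at most `r` in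
each variable: `∑ w_e x^e`. -/
def value {κ : Type} [Fintype κ] [DecidableEq κ] {r : ℕ} (w : (κ → Fin (r + 1)) → ℤ)
    (x : κ → ℤ) : ℤ :=
  ∑ e, w e * ∏ q, x q ^ (e q : ℕ)

/-- For the `s` solutions `u_j` of the recurrence `c` with the initial values `a (j, ·)` and all
the nonzero polynomials `w` with coefficients at most `X` and degree at most `r` in each variable, the
sequence `v_n = w(u_j(n + i))` has a certificate: with `k = 2 (s d r + 1)` some prime `p ≤ Y`, `p ≡ 1`
modulo `k`, divides no term of `v`, and `v` has period `(p - 1) / k` modulo `p`; and the function `f`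
returns `true` on every input which codes `v` as a linear recurrence sequence. -/
def Easy (f : ℕ × (List (ℕ × ℕ) × List (ℕ × ℕ)) → Bool) {s d : ℕ} (c : Fin d → ℤ) (r : ℕ)
    (X Y : ℝ) (a : Fin s × Fin d → ℤ) : Prop :=
  ∀ u : Fin s → ℕ → ℤ, (∀ j, IsSeq c (fun i => a (j, i)) (u j)) →
    ∀ w : (Fin s × Fin d → Fin (r + 1)) → ℤ, w ≠ 0 → (∀ e, |(w e : ℝ)| ≤ X) →
    ∀ v : ℕ → ℤ, (∀ n, v n = value w (fun q => u q.1 (n + q.2))) →
      (∃ p : ℕ, p.Prime ∧ (p : ℝ) ≤ Y ∧ 2 * (s * d * r + 1) ∣ p - 1 ∧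
        ∀ n, ¬ (p : ℤ) ∣ v n ∧ (p : ℤ) ∣ v (n + (p - 1) / (2 * (s * d * r + 1))) - v n) ∧
      ∀ z, IsLRS z v → f (⌊Y⌋₊, z) = true

open scoped Classical in
theorem result :
    -- one total computable function, which reads all linear recurrence sequences and never errs
    ∃ f : ℕ × (List (ℕ × ℕ) × List (ℕ × ℕ)) → Bool, Computable f ∧
      (∀ (y : ℕ) (z : List (ℕ × ℕ) × List (ℕ × ℕ)) (v : ℕ → ℤ), IsLRS z v → f (y, z) = true →
        ∀ n, v n ≠ 0) ∧
      ∀ (s r d : ℕ) (_ : 1 ≤ s) (hd : 1 ≤ d) (c : Fin d → ℤ) (_ : c ⟨d - 1, by omega⟩ ≠ 0)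
        (_ : Squarefree ((charPoly c).map (Int.castRingHom ℚ))) (A ε : ℝ) (_ : 1 < A) (_ : 0 < ε),
        ∃ η : ℝ, 0 < η ∧ ∃ H₀ : ℕ, ∀ H : ℕ, H₀ ≤ H → ∀ b : Fin s × Fin d → ℤ,
          (Nat.card {a : Fin s × Fin d → ℤ // (∀ q, |a q - b q| ≤ (H : ℤ)) ∧
            ¬ Easy f c r ((H : ℝ) ^ η) (Real.log H ^ A) a} : ℝ) ≤
            (2 * (H : ℝ) + 1) ^ (s * d - 1) * (H : ℝ) ^ (1 / 2 + 1 / (2 * A) + ε) := by
  obtain ⟨f, hf, hfe⟩ := t10
  refine ⟨f, hf, fun y z v hv ht n hn => ?_, ?_⟩
  · obtain ⟨q, _, _, hq⟩ := (hfe y z v hv).1 ht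
    apply hq n
    rw [hn]
    exact dvd_zero _
  intro s r d hs hd c hc hsq A ε hA hε
  set c' : Fin d → ℤ := fun i => c (Fin.rev i) with hc'
  rw [charPoly_eq] at hsq
  have h0 : (chi c').coeff 0 ≠ 0 := by
    have := chi_coeff c' ⟨0, by omega⟩
    simp only at this
    rw [this, neg_ne_zero]
    have e : Fin.rev (⟨0, by omega⟩ : Fin d) = ⟨d - 1, by omega⟩ := by
      apply Fin.ext
      rw [Fin.val_rev]
    rw [hc']
    simp only
    rw [e]
    exact hc
  set k : ℕ := 2 * (s * d * r + 1) with hk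
  obtain ⟨g, p₀, hg, hsplit⟩ := split_primes k (by omega) c' h0 hsq 1 one_ne_zero
  obtain ⟨H₁, hone⟩ := one_poly (s := s) (r := r) hs hd c' g p₀ k hk
    (fun p hp hp0 hps => ⟨(hsplit p hp hp0 hps).1, (hsplit p hp hp0 hps).2.2.1⟩) hg A (ε / 2) hA
    (by positivity)
  obtain ⟨η, hη0, hη1, H₃, hbox⟩ := smallbox (Fintype.card (Fin s × Fin d → Fin (r + 1)))
    (ε / 2) (by positivity)
  refine ⟨η, hη0, max 3 (max H₁ H₃), fun H hH b => ?_⟩
  have hH3 : 3 ≤ H := (le_max_left _ _).trans hH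
  have hH' := (le_max_right _ _).trans hH
  have hHH1 : H₁ ≤ H := (le_max_left _ _).trans hH'
  have hHH3 : H₃ ≤ H := (le_max_right _ _).trans hH'
  have hHr : (1 : ℝ) ≤ H := by
    have : (3 : ℝ) ≤ H := by exact_mod_cast hH3
    linarith
  have hlog : 0 ≤ Real.log H := Real.log_nonneg hHr
  set X : ℝ := (H : ℝ) ^ η with hX
  have hX1 : 1 ≤ X := Real.one_le_rpow hHr hη0.le
  have hXH : X ≤ H := by
    calc X ≤ (H : ℝ) ^ (1 : ℝ) := Real.rpow_le_rpow_of_exponent_le hHr hη1
      _ = H := Real.rpow_one _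
  set Y : ℝ := Real.log H ^ A with hY
  have hY0 : 0 ≤ Y := Real.rpow_nonneg hlog _
  set y : ℕ := ⌊Y⌋₊ with hy
  have hPP : ∀ p ∈ PP g p₀ y, p.Prime ∧ p ≤ y ∧ p₀ ≤ p ∧
      (g.map (Int.castRingHom (ZMod p))).Splits := by
    intro p hp
    unfold PP at hp
    rw [Finset.mem_filter, Finset.mem_range] at hp
    exact ⟨hp.2.1, by omega, hp.2.2.1, hp.2.2.2⟩
  have hz : ∀ w : (Fin s × Fin d → Fin (r + 1)) → ℤ, (∀ e, |w e| ≤ ((⌊X⌋₊ : ℕ) : ℤ)) →
      ∀ e, |(w e : ℝ)| ≤ X := by
    intro w hw e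
    have h2 : |((w e : ℤ) : ℝ)| ≤ ((⌊X⌋₊ : ℕ) : ℝ) := by exact_mod_cast hw e
    exact h2.trans (Nat.floor_le (by linarith))
  set E : ((Fin s × Fin d → Fin (r + 1)) → ℤ) → Finset (Fin s × Fin d → ℤ) := fun w =>
    if h : w ≠ 0 ∧ (∀ e, |(w e : ℝ)| ≤ H) then
      (bx b H).filter (fun a => ∀ p ∈ (hone H hHH1 w h.1 h.2).choose, ∃ n,
        (p : ℤ) ∣ ev1 w (stt c' a n)) else ∅ with hE
  have hEcard : ∀ w, (∀ i, |w i| ≤ ((⌊X⌋₊ : ℕ) : ℤ)) →
      ((E w).card : ℝ) ≤
        (2 * (H : ℝ) + 1) ^ (s * d - 1) * (H : ℝ) ^ (1 / 2 + 1 / (2 * A) + ε / 2) := by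
    intro w hw
    rw [hE]
    simp only
    split_ifs with h
    · exact (hone H hHH1 w h.1 h.2).choose_spec.2 b
    · simp only [Finset.card_empty, Nat.cast_zero]
      positivity
  have hcov : ∀ a ∈ bx b H, ¬ Easy f c r X Y a →
      ∃ w : (Fin s × Fin d → Fin (r + 1)) → ℤ,
        (∀ i, |w i| ≤ ((⌊X⌋₊ : ℕ) : ℤ)) ∧ a ∈ E w := by
    intro a ha hnot
    by_contra hcon
    apply hnot
    intro u hu w hw hwX v hv
    have hwN : ∀ e, |w e| ≤ ((⌊X⌋₊ : ℕ) : ℤ) := by
      intro e
      have h1 : (((w e).natAbs : ℕ) : ℝ) ≤ X := by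
        rw [Nat.cast_natAbs]
        push_cast
        exact hwX e
      have h2 := Nat.le_floor h1
      rw [Int.abs_eq_natAbs]
      exact_mod_cast h2
    have hwH : w ≠ 0 ∧ (∀ e, |(w e : ℝ)| ≤ H) := ⟨hw, fun e => (hwX e).trans hXH⟩
    have haE : a ∉ E w := fun h => hcon ⟨w, hwN, h⟩
    rw [hE] at haE
    simp only at haE
    rw [dif_pos hwH, Finset.mem_filter, not_and] at haE
    have h1 := haE ha
    push Not at h1
    obtain ⟨p, hp, hpn⟩ := h1
    have hpPP := (hone H hHH1 w hwH.1 hwH.2).choose_spec.1 hp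
    obtain ⟨hpp, hpy, hp0, hps⟩ := hPP p hpPP
    obtain ⟨hkp, _, hseq, _, _⟩ := hsplit p hpp hp0 hps
    have hve : ∀ n, v n = ev1 w (stt c' a n) := by
      intro n
      rw [hv n]
      have hu' : (fun q : Fin s × Fin d => u q.1 (n + q.2)) = stt c' a n := by
        funext q
        exact (isSeq_iff c (fun i => a (q.1, i)) (u q.1)).1 (hu q.1) _
      rw [hu']
      rfl
    have hpv : ∀ n, ¬ (p : ℤ) ∣ v n := fun n => by rw [hve n]; exact hpn n
    refine ⟨⟨p, hpp, ?_, hkp, fun n => ⟨hpv n, ?_⟩⟩, fun code hcode => ?_⟩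
    · have : (p : ℝ) ≤ (y : ℝ) := by exact_mod_cast hpy
      exact this.trans (Nat.floor_le hY0)
    · have h3 : ∀ j, ((v j : ℤ) : ZMod p) = ev1 (fun e => (w e : ZMod p))
          (stt (fun i => (c' i : ZMod p)) (fun q => (a q : ZMod p)) j) := by
        intro j
        rw [hve j]
        unfold ev1
        push_cast
        refine Finset.sum_congr rfl fun e _ => ?_
        congr 1
        refine Finset.prod_congr rfl fun q _ => ?_
        congr 1
        exact stt_map (Int.castRingHom (ZMod p)) c' a j q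
      have h4 : stt (fun i => (c' i : ZMod p)) (fun q => (a q : ZMod p)) (n + (p - 1) / k) =
          stt (fun i => (c' i : ZMod p)) (fun q => (a q : ZMod p)) n := by
        funext q
        unfold stt
        have := hseq (fun i => ((a (q.1, i) : ℤ) : ZMod p)) (n + q.2)
        rwa [add_right_comm] at this
      rw [← ZMod.intCast_zmod_eq_zero_iff_dvd, Int.cast_sub, h3, h3, h4, sub_self]
    · rw [hfe _ _ _ hcode]
      exact ⟨p, hpy, hpp, hpv⟩
  have hub := union_bound (bx b H) (fun a => ¬ Easy f c r X Y a) E ⌊X⌋₊ _ hEcard hcov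
  have hcardeq : Nat.card {a : Fin s × Fin d → ℤ // (∀ q, |a q - b q| ≤ (H : ℤ)) ∧
      ¬ Easy f c r X Y a} = ((bx b H).filter (fun a => ¬ Easy f c r X Y a)).card := by
    apply Nat.subtype_card
    intro a
    unfold bx
    rw [Finset.mem_filter, Fintype.mem_piFinset]
    apply and_congr_left'
    refine forall_congr' fun i => ?_
    rw [Finset.mem_Icc, abs_le]
    constructor
    · rintro ⟨h1, h2⟩
      exact ⟨by linarith, by linarith⟩
    · rintro ⟨h1, h2⟩
      exact ⟨by linarith, by linarith⟩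
  rw [hcardeq]
  refine hub.trans ?_
  have hfl : ((⌊X⌋₊ : ℕ) : ℝ) ≤ X := Nat.floor_le (by linarith)
  have h5 : (0 : ℝ) ≤ (2 * (H : ℝ) + 1) ^ (s * d - 1) := by positivity
  calc (2 * ((⌊X⌋₊ : ℕ) : ℝ) + 1) ^ (Fintype.card (Fin s × Fin d → Fin (r + 1))) *
        ((2 * (H : ℝ) + 1) ^ (s * d - 1) * (H : ℝ) ^ (1 / 2 + 1 / (2 * A) + ε / 2))
      ≤ (H : ℝ) ^ (ε / 2) *
        ((2 * (H : ℝ) + 1) ^ (s * d - 1) * (H : ℝ) ^ (1 / 2 + 1 / (2 * A) + ε / 2)) := by
        apply mul_le_mul_of_nonneg_right _ (by positivity)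
        refine le_trans ?_ (hbox H hHH3)
        exact pow_le_pow_left₀ (by positivity) (by linarith) _
    _ = (2 * (H : ℝ) + 1) ^ (s * d - 1) * ((H : ℝ) ^ (ε / 2) *
        (H : ℝ) ^ (1 / 2 + 1 / (2 * A) + ε / 2)) := by ring
    _ = (2 * (H : ℝ) + 1) ^ (s * d - 1) * (H : ℝ) ^ (1 / 2 + 1 / (2 * A) + ε) := by
        rw [← Real.rpow_add (by linarith)]
        congr 2
        ring

end Pool.Agent.Results.MP_8d13b5_lc.SquareRootSaving
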